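import Pool.Agent.R414.CB.Ex4

set_option autoImplicit false

/-!
# Maximal Chebyshev hyperelliptic curves in characteristic `1` modulo `4`: degree `4`
-/

open Polynomial

namespace Pool.Agent.Results.MP_b95a42_nt.DegreeFour

/-- The polynomial `φ_d` over a field `k`: `φ_0 = 2`, `φ_1 = x`, `φ_{d+2} = x φ_{d+1} - φ_d`. -/
noncomputable def φ (k : Type) [Field k] : ℕ → k[X]
  | 0 => 2
  | 1 => X
  | (d + 2) => X * φ k (d + 1) - φ k d

/-- The number of `k`-rational points of the smooth complete curve `H_d` with affine model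
`y ^ 2 = φ_d (x)`: the affine points, and one point at infinity if `d` is odd, two rational ones
if `d` is even (`φ_d` is monic). -/
noncomputable def points (k : Type) [Field k] (d : ℕ) : ℕ :=
  Nat.card {P : k × k // P.2 ^ 2 = (φ k d).eval P.1} + (if Even d then 2 else 1)

/-- `H_d`, of genus `(d - 1) / 2` (rounded down), is maximal over the field with `p ^ (2 m)`
elements for some `m ≥ 1`. -/
def Maximal (d p : ℕ) [Fact p.Prime] : Prop :=
  ∃ m : ℕ, 1 ≤ m ∧
    points (GaloisField p (2 * m)) d = p ^ (2 * m) + 1 + 2 * ((d - 1) / 2) * p ^ m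

theorem maximal_four : Maximal 4 5 := by
  classical
  refine ⟨1, le_rfl, ?_⟩
  let K := GaloisField 5 (2 * 1)
  have : Fintype K := Fintype.ofFinite K
  have hK : Fintype.card K = 25 := by
    rw [← Nat.card_eq_fintype_card]
    exact GaloisField.card 5 (2 * 1) (by norm_num)
  have h1 := Pool.Agent.R414.CB.card_H4 hK
  have h2 : ∀ x : K, (φ K 4).eval x = x ^ 4 - 4 * x ^ 2 + 2 := by
    intro x
    simp only [φ, eval_sub, eval_mul, eval_X, eval_ofNat]
    ring
  unfold points
  have h3 : Nat.card {P : K × K // P.2 ^ 2 = (φ K 4).eval P.1} = 34 := by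
    rw [← h1]
    congr 1
    simp only [h2]
  change Nat.card {P : K × K // P.2 ^ 2 = (φ K 4).eval P.1} + (if Even 4 then 2 else 1) = _
  rw [h3, if_pos (by decide)]
  norm_num

/-- **The question has a negative answer for even `d`**: `H_4` is maximal in characteristic `5`. -/
theorem result : ∃ (d p : ℕ) (_ : Fact p.Prime), 3 ≤ d ∧ p % 4 = 1 ∧ ¬ p ∣ d ∧ Maximal d p ∧
    ¬ ∃ ℓ n : ℕ, ℓ.Prime ∧ ℓ % 4 = 1 ∧ 1 ≤ n ∧ d = ℓ ^ n := by
  refine ⟨4, 5, Pool.Agent.R414.CB.fact5, by norm_num, by norm_num, by norm_num, maximal_four, ?_⟩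
  rintro ⟨ℓ, n, hℓ, hℓ4, hn, h⟩
  have h1 : ℓ ∣ 2 ^ 2 := by
    have : ℓ ∣ ℓ ^ n := dvd_pow_self ℓ (by omega)
    rw [← h] at this
    exact this
  have h2 := (Nat.prime_dvd_prime_iff_eq hℓ Nat.prime_two).1 (hℓ.dvd_of_dvd_pow h1)
  rw [h2] at hℓ4
  norm_num at hℓ4

end Pool.Agent.Results.MP_b95a42_nt.DegreeFour
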