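import Pool.Agent.R414.CB.Fin

set_option autoImplicit false

/-!
# Maximal Chebyshev hyperelliptic curves in characteristic `1` modulo `4`: odd degree
-/

open Polynomial

namespace Pool.Agent.Results.MP_b95a42_nt.OddDegree

/-- The polynomial `φ_d` over a field `k`: `φ_0 = 2`, `φ_1 = x`, `φ_{d+2} = x φ_{d+1} - φ_d`. -/
noncomputable def φ (k : Type) [Field k] : ℕ → k[X]
  | 0 => 2
  | 1 => X
  | (d + 2) => X * φ k (d + 1) - φ k d

/-- The number of `k`-rational points of the smooth complete curve `H_d` with affine model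
`y ^ 2 = φ_d (x)`: the affine points, and one point at infinity if `d` is odd, two rational ones
if `d` is even (`φ_d` is monic). -/
noncomputable def points (k : Type) [Field k] (d : ℕ) : ℕ :=
  Nat.card {P : k × k // P.2 ^ 2 = (φ k d).eval P.1} + (if Even d then 2 else 1)

/-- `H_d`, of genus `(d - 1) / 2` (rounded down), is maximal over the field with `p ^ (2 m)`
elements for some `m ≥ 1`. -/
def Maximal (d p : ℕ) [Fact p.Prime] : Prop :=
  ∃ m : ℕ, 1 ≤ m ∧
    points (GaloisField p (2 * m)) d = p ^ (2 * m) + 1 + 2 * ((d - 1) / 2) * p ^ m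

lemma phi_eq (k : Type) [Field k] : ∀ d : ℕ, φ k d = Pool.Agent.R414.CB.phi k d
  | 0 => by
    unfold φ Pool.Agent.R414.CB.phi
    rw [dickson_zero]
    norm_num
  | 1 => by
    unfold φ Pool.Agent.R414.CB.phi
    rw [dickson_one]
  | (d + 2) => by
    unfold φ
    rw [phi_eq k (d + 1), phi_eq k d]
    unfold Pool.Agent.R414.CB.phi
    rw [dickson_add_two, map_one, one_mul]

open Finset in
lemma card_affine {k : Type} [Field k] [Fintype k] [DecidableEq k] (hk : ringChar k ≠ 2)
    (f : k[X]) : (Nat.card {P : k × k // P.2 ^ 2 = f.eval P.1} : ℤ) =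
      Fintype.card k + ∑ x : k, quadraticChar k (f.eval x) := by
  have h1 : Nat.card {P : k × k // P.2 ^ 2 = f.eval P.1} =
      ∑ x : k, (univ.filter fun y : k => y ^ 2 = f.eval x).card := by
    rw [Nat.card_eq_fintype_card, Fintype.card_subtype, ← univ_product_univ]
    rw [card_eq_sum_card_fiberwise (f := fun P : k × k => P.1) (t := univ) (fun _ _ => mem_univ _)]
    refine sum_congr rfl fun x _ => ?_
    refine card_bij (fun P _ => P.2) ?_ ?_ ?_
    · rintro ⟨a, b⟩ h
      simp only [mem_filter, mem_univ, true_and, univ_product_univ] at h ⊢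
      rw [h.1, h.2]
    · rintro ⟨a, b⟩ h ⟨a', b'⟩ h' hb
      simp only [mem_filter, mem_univ, true_and, univ_product_univ] at h h' hb
      rw [h.2, h'.2, hb]
    · intro y hy
      simp only [mem_filter, mem_univ, true_and] at hy
      exact ⟨(x, y), by simpa using hy, rfl⟩
  have h2 : ∀ x : k, ((univ.filter fun y : k => y ^ 2 = f.eval x).card : ℤ) =
      quadraticChar k (f.eval x) + 1 := by
    intro x
    have h3 := quadraticChar_card_sqrts hk (f.eval x)
    rw [← h3]
    congr 2
    ext y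
    simp
  rw [h1, Nat.cast_sum, sum_congr rfl fun x _ => h2 x, sum_add_distrib, sum_const, card_univ,
    nsmul_eq_mul, mul_one, add_comm]

open Pool.Agent.R414.CB in
theorem odd_case (p d : ℕ) [Fact p.Prime] (hp4 : p % 4 = 1) (hd3 : 3 ≤ d) (hd : Odd d)
    (hpd : ¬ p ∣ d) (h : Maximal d p) : ∃ ℓ n : ℕ, ℓ.Prime ∧ ℓ % 4 = 1 ∧ 1 ≤ n ∧ d = ℓ ^ n := by
  classical
  obtain ⟨m, hm, hpts⟩ := h
  let F := GaloisField p (2 * m)
  have : Fintype F := Fintype.ofFinite F
  let E := FiniteField.Extension F p 2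
  have : Fintype E := Fintype.ofFinite E
  have hp := (Fact.out : p.Prime)
  have hqF : Fintype.card F = p ^ (2 * m) := by
    rw [← Nat.card_eq_fintype_card]
    exact GaloisField.card p (2 * m) (by omega)
  have hcE : Fintype.card E = Fintype.card F ^ 2 := by
    rw [← Nat.card_eq_fintype_card, ← Nat.card_eq_fintype_card]
    exact FiniteField.natCard_extension F p 2
  have hF := ringChar_ne_two (F := F) hp4
  have hq4 : Fintype.card F % 4 = 1 := by rw [hqF]; exact card_mod_four hp4
  have hr : Fintype.card F = (p ^ m) ^ 2 := by rw [hqF, ← pow_mul, mul_comm]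
  have hS : ∑ x : F, quadraticChar F ((Pool.Agent.R414.CB.phi F d).eval x) =
      ((d : ℤ) - 1) * ((p ^ m : ℕ) : ℤ) := by
    have h1 := card_affine hF (φ F d)
    unfold points at hpts
    rw [if_neg (Nat.not_even_iff_odd.2 hd)] at hpts
    have h2 : (Nat.card {P : F × F // P.2 ^ 2 = (φ F d).eval P.1} : ℤ) =
        p ^ (2 * m) + 2 * ((d - 1) / 2 : ℕ) * p ^ m := by
      have := congrArg (Nat.cast (R := ℤ)) hpts
      push_cast at this ⊢
      linarith
    have h3 : (2 * ((d - 1) / 2 : ℕ) : ℤ) = (d : ℤ) - 1 := by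
      obtain ⟨c, hc⟩ := hd
      rw [hc]
      simp only [Nat.add_sub_cancel]
      rw [Nat.mul_div_cancel_left _ two_pos]
      push_cast
      ring
    rw [h2, hqF, h3, phi_eq] at h1
    push_cast at h1 ⊢
    linarith
  obtain ⟨h1, h2, h3⟩ := extremal (E := E) hcE hF hq4 hr hd hS
  have hbal : Bal d p (2 * m) := by
    rcases h1 with h1 | h1
    · exact bal_A hp4 hm hqF hd h1 h2
    · exact bal_B hp4 hcE hm hqF hd h1 h3
  obtain ⟨l, a, hl, hl4, ha, hda⟩ := prime_power_of_bal hd (by omega) (by omega) hbal hp4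
    ((Nat.Prime.coprime_iff_not_dvd hp).2 hpd)
  exact ⟨l, a, hl, hl4, ha, hda⟩

/-- **Main result.** For odd `d ≥ 3` and a prime `p ≡ 1 (mod 4)` not dividing `d`, maximality of
`H_d` in characteristic `p` forces `d = ℓ ^ n` with `ℓ ≡ 1 (mod 4)` prime. -/
theorem result (p d : ℕ) [Fact p.Prime] (hp : p % 4 = 1) (hd3 : 3 ≤ d) (hd : Odd d)
    (hpd : ¬ p ∣ d) (h : Maximal d p) :
    ∃ ℓ n : ℕ, ℓ.Prime ∧ ℓ % 4 = 1 ∧ 1 ≤ n ∧ d = ℓ ^ n :=
  odd_case p d hp hd3 hd hpd h

end Pool.Agent.Results.MP_b95a42_nt.OddDegree
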